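import Pool.Agent.Helper54.IB.Main

/-!
# Polytopal intersection bodies in dimension at least 5 are polars of zonotopes

For every `n ≥ 5`, every polytope in `ℝⁿ` that is an intersection body is the polar of an
origin-symmetric zonotope.  The definitions (`radial`, `IsSymmStarBody`, `radon`,
`IsIntersectionBody`, `zonotope`, `polarBody`, `IsPolytope`) are in
`Pool.Agent.Helper54.IB.Defs`.

Sketch of the proof.  Let `K = {p ≤ 1}` with `p(x) = max_{a ∈ A} ⟪a, x⟫`.
* `ρ_K = R μ` with `μ ≥ 0` gives `∫ (ψ ⋆ ψ~) / p ≥ 0` for all test functions `ψ`, i.e. `1/p` is a
  positive definite function.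
* Second differences of `1/p` in a direction `ξ`, rescaled in the direction `ξ`, converge
  to a positive definite kernel which involves the jump of the gradient of `p` along the
  hyperplane `ξ^⊥`; a further rescaling in a direction `η ⟂ ξ` gives a positive definite kernel
  which compares the jumps on the two sides of a ridge.  (The dominating functions
  are locally integrable because the codimension of `span (ξ, η)` is at least 3.)
* Testing the second kernel gives equality of the jumps on the two sides, so that the jump
  along the hyperplane `ξ^⊥` is constant and `p` is a sum of functions `|⟪w, ·⟫|`.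
-/

open Pool.Agent.Helper54.IB

namespace Pool.Agent.Results.MP_937656_gt.PolytopalIntersection

/-- For every `n ≥ 5`, a polytope `K` in `ℝⁿ` that is an intersection body is the polar
of an origin-symmetric zonotope `∑ [-vᵢ, vᵢ]` whose generators `vᵢ` span `ℝⁿ`. -/
theorem result (n : ℕ) (hn : 5 ≤ n) (K : Set (EuclideanSpace ℝ (Fin n)))
    (hK : IsPolytope K) (hI : IsIntersectionBody K) :
    ∃ (N : ℕ) (v : Fin N → EuclideanSpace ℝ (Fin n)),
      Submodule.span ℝ (Set.range v) = ⊤ ∧ K = polarBody (zonotope v) :=
  polytopal_intersection_body (by rw [finrank_euclideanSpace_fin]; exact hn) hK hI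

end Pool.Agent.Results.MP_937656_gt.PolytopalIntersection
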